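import Pool.Agent.DCI57.Final

/-!
# Characters of the group of the changes of signs
-/

set_option autoImplicit false

noncomputable section

namespace Pool.Agent.HYW

open scoped Classical LinearAlgebra.Projectivization

variable {J : Type} [Fintype J]

/-- `x ↦ (-1) ^ x` -/
def sg (x : ZMod 2) : ℚ := (-1) ^ x.val

theorem sg_zero : sg 0 = 1 := by
  unfold sg
  rw [show (0 : ZMod 2).val = 0 from rfl, pow_zero]

theorem sg_one : sg 1 = -1 := by
  unfold sg
  rw [show (1 : ZMod 2).val = 1 from rfl, pow_one]

theorem zero_or_one (x : ZMod 2) : x = 0 ∨ x = 1 := by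
  revert x
  decide

theorem sg_add (x y : ZMod 2) : sg (x + y) = sg x * sg y := by
  rcases zero_or_one x with rfl | rfl
  · rw [zero_add, sg_zero, one_mul]
  · rcases zero_or_one y with rfl | rfl
    · rw [add_zero, sg_zero, mul_one]
    · rw [show (1 + 1 : ZMod 2) = 0 from rfl, sg_zero, sg_one]
      norm_num

theorem sg_sum {ι : Type} (s : Finset ι) (f : ι → ZMod 2) : sg (∑ i ∈ s, f i) = ∏ i ∈ s, sg (f i) := by
  classical
  induction s using Finset.induction_on with
  | empty => rw [Finset.sum_empty, Finset.prod_empty, sg_zero]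
  | insert a s ha ih => rw [Finset.sum_insert ha, Finset.prod_insert ha, sg_add, ih]

/-- the character with the exponents `a` -/
def chr (a : J → ZMod 2) : AddChar (J → ZMod 2) ℚ where
  toFun t := sg (∑ j, a j * t j)
  map_zero_eq_one' := by
    simp [sg_zero]
  map_add_eq_mul' t t' := by
    rw [← sg_add, ← Finset.sum_add_distrib]
    simp only [Pi.add_apply, mul_add]

theorem chr_apply (a t : J → ZMod 2) : chr a t = sg (∑ j, a j * t j) := rfl

theorem chr_pow (a t : J → ZMod 2) : chr a t = (-1 : ℚ) ^ (∑ j, a j * t j).val := rfl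

/-- orthogonality -/
theorem sum_chr [DecidableEq J] (t : J → ZMod 2) : ∑ a : J → ZMod 2, chr a t =
    if t = 0 then (Fintype.card (J → ZMod 2) : ℚ) else 0 := by
  have h1 : ∀ a : J → ZMod 2, chr a t = ∏ j, sg (a j * t j) := fun a => by
    rw [chr_apply, sg_sum]
  simp only [h1]
  have h2 := Finset.prod_univ_sum (fun _ : J => (Finset.univ : Finset (ZMod 2)))
    fun j x => sg (x * t j)
  rw [Fintype.piFinset_univ] at h2
  rw [← h2]
  have h3 : ∀ j, ∑ x : ZMod 2, sg (x * t j) = if t j = 0 then 2 else 0 := by
    intro j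
    have h4 : ∀ y : ZMod 2, ∑ x : ZMod 2, sg (x * y) = if y = 0 then 2 else 0 := by
      intro y
      rw [show (Finset.univ : Finset (ZMod 2)) = {0, 1} from rfl, Finset.sum_pair (by decide),
        zero_mul, one_mul, sg_zero]
      rcases zero_or_one y with rfl | rfl
      · rw [sg_zero, if_pos rfl]
        norm_num
      · rw [sg_one, if_neg (by decide)]
        norm_num
    exact h4 (t j)
  simp only [h3]
  by_cases h : t = 0
  · rw [if_pos h]
    simp [h, Fintype.card_pi]
  · rw [if_neg h]
    have h5 : ∃ j, t j ≠ 0 := by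
      by_contra hcon
      push Not at hcon
      exact h (funext hcon)
    obtain ⟨j, hj⟩ := h5
    exact Finset.prod_eq_zero (Finset.mem_univ j) (if_neg hj)

end Pool.Agent.HYW
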