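import Pool.Agent.HYW.Defs
import Pool.Agent.HYW.Chr

/-!
# Only the character with all signs matters
-/

set_option autoImplicit false

noncomputable section

namespace Pool.Agent.HYW

open Pool.Agent.ZCyc Pool.Agent.DCI57
open scoped Classical LinearAlgebra.Projectivization

variable {k : Type} [Field k] {n : ℕ}

theorem prim [CharZero k] : IsPrimitiveRoot (((-1 : kˣ) : kˣ) : k) 2 := by
  rw [Units.val_neg, Units.val_one]
  exact IsPrimitiveRoot.neg_one 0 (by norm_num)

theorem neg_one_sq : (-1 : kˣ) ^ 2 = 1 := by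
  norm_num

/-- the parts for the other characters are zero -/
theorem op_part [IsAlgClosed k] [CharZero k] (c : Fin (n + 1) → J n → k) {a : J n → ZMod 2}
    (h0 : a ≠ 0) (h1 : a ≠ 1) {p : ℙ k (J n → k)} (hp : p ∈ W c) :
    op (-1) (chr a) (Finsupp.single p 1) ∈ ratEquiv ℚ (W c) := by
  by_cases hsum : ∑ j, a j = 0
  · set S : Finset (J n) := Finset.univ.filter fun j => a j ≠ 0 with hSdef
    have hS : ∀ j, j ∈ S ↔ a j ≠ 0 := by
      intro j
      simp [hSdef]
    have hone : ∀ j ∈ S, a j = 1 := fun j hj =>
      (zero_or_one (a j)).resolve_left ((hS j).1 hj)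
    have hne : S.Nonempty := by
      by_contra hcon
      apply h0
      funext j
      by_contra hj
      exact hcon ⟨j, (hS j).2 hj⟩
    have hlt : S.card < 2 * n + 2 := by
      have h2 : S.card < Fintype.card (J n) := by
        apply Finset.card_lt_univ_of_notMem (x := ?_) ?_
        · exact (Function.ne_iff.1 h1).choose
        · intro h3
          exact (Function.ne_iff.1 h1).choose_spec (hone _ h3)
      rwa [Fintype.card_fin] at h2
    have hSsum : ∑ j ∈ S, a j = 0 := by
      rw [← hsum]
      apply Finset.sum_subset (Finset.subset_univ S)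
      intro j _ hj
      by_contra h0
      exact hj ((hS j).2 h0)
    have heven : Even S.card := by
      rw [Finset.sum_congr rfl hone, Finset.sum_const, nsmul_eq_mul, mul_one,
        ZMod.natCast_eq_zero_iff] at hSsum
      exact even_iff_two_dvd.2 hSsum
    obtain ⟨q, hq⟩ := heven
    obtain ⟨e, b, hqe, hb1, hb2, hb3⟩ := exists_split (m := 2) (Or.inl rfl) a S
      (fun j hj => (hS j).1 hj) hSsum q (by
        intro u
        have hu : (u : ZMod 2) = 1 := (zero_or_one _).resolve_left u.ne_zero
        have h3 : ∑ j ∈ S, ((u : ZMod 2) * a j).val = S.card := by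
          rw [Finset.card_eq_sum_ones]
          refine Finset.sum_congr rfl fun j hj => ?_
          rw [hu, hone j hj]
          rfl
        rw [h3]
        omega)
    have he : 0 < e := by
      obtain ⟨j, hj⟩ := hne
      exact lt_of_le_of_lt (Nat.zero_le _) (hb1 j hj)
    refine vanish (r := n + 1) prim c (ω := (-1 : ℚ)) (IsPrimitiveRoot.neg_one 0 (by norm_num))
      (a := a) (fun t => chr_pow a t) hS hne
      (fun j => if h : b j < e then ⟨b j, h⟩ else ⟨0, he⟩) ?_ ?_ ?_ hp
    · intro B
      obtain ⟨j, hj, h3⟩ := hb2 B B.2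
      refine ⟨j, hj, ?_⟩
      rw [dif_pos (by rw [h3]; exact B.2)]
      exact Fin.ext h3
    · intro B
      rw [← hb3 B B.2]
      refine Finset.sum_congr ?_ fun _ _ => rfl
      ext j
      constructor
      · intro h
        obtain ⟨hj, h3⟩ := Finset.mem_filter.1 h
        rw [dif_pos (hb1 j hj)] at h3
        exact Finset.mem_filter.2 ⟨hj, congrArg Fin.val h3⟩
      · intro h
        obtain ⟨hj, h3⟩ := Finset.mem_filter.1 h
        refine Finset.mem_filter.2 ⟨hj, ?_⟩
        rw [dif_pos (hb1 j hj)]
        exact Fin.ext h3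
    · rw [Fintype.card_fin]
      omega
  · have h2 : chr a (fun _ => 1) ≠ 1 := by
      rw [chr_apply]
      simp only [mul_one]
      rw [(zero_or_one _).resolve_left hsum, sg_one]
      norm_num
    rw [op_eq_zero neg_one_sq (chr a) (act_const (-1) 1 p) h2]
    exact Submodule.zero_mem _

/-- **The part with all signs.** `N = 2 ^ (2 n + 2)`. -/
theorem full_part [IsAlgClosed k] [CharZero k] (c : Fin (n + 1) → J n → k)
    {p q : ℙ k (J n → k)} (hp : p ∈ W c) (hq : q ∈ W c) :
    (Fintype.card (J n → ZMod 2) : ℚ) • (Finsupp.single p 1 - Finsupp.single q 1) -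
      (op (-1) (chr 1) (Finsupp.single p 1) - op (-1) (chr 1) (Finsupp.single q 1)) ∈
        ratEquiv ℚ (W c) := by
  have hsum : ∀ p : ℙ k (J n → k), ∑ a : J n → ZMod 2, op (-1) (chr a) (Finsupp.single p 1) =
      (Fintype.card (J n → ZMod 2) : ℚ) • Finsupp.single p (1 : ℚ) := by
    intro p
    simp only [op_single]
    rw [Finset.sum_comm]
    have h1 : ∀ g : J n → ZMod 2, ∑ a : J n → ZMod 2, Finsupp.single (act (-1 : kˣ) g p)
        (chr a g) = if g = 0 then Finsupp.single p (Fintype.card (J n → ZMod 2) : ℚ) else 0 := by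
      intro g
      rw [← Finsupp.single_finsetSum, sum_chr]
      by_cases hg : g = 0
      · rw [if_pos hg, if_pos hg, hg, act_zero]
      · rw [if_neg hg, if_neg hg, Finsupp.single_zero]
    rw [Finset.sum_congr rfl fun g _ => h1 g, Finset.sum_ite_eq' Finset.univ (0 : J n → ZMod 2)]
    rw [if_pos (Finset.mem_univ _), Finsupp.smul_single, smul_eq_mul, mul_one]
  have h1 : (Fintype.card (J n → ZMod 2) : ℚ) • (Finsupp.single p 1 - Finsupp.single q 1) -
      (op (-1) (chr 1) (Finsupp.single p 1) - op (-1) (chr 1) (Finsupp.single q 1)) =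
      ∑ a ∈ Finset.univ.erase (1 : J n → ZMod 2), (op (-1) (chr a) (Finsupp.single p (1 : ℚ)) -
        op (-1) (chr a) (Finsupp.single q 1)) := by
    rw [smul_sub, ← hsum, ← hsum, ← Finset.sum_sub_distrib,
      ← Finset.sum_erase_add _ _ (Finset.mem_univ (1 : J n → ZMod 2)), add_sub_cancel_right]
  rw [h1]
  refine Submodule.sum_mem _ fun a ha => ?_
  have ha1 := (Finset.mem_erase.1 ha).1
  by_cases ha0 : a = 0
  · refine trivial_part (m := 2) prim c hp hq fun t => ?_
    rw [ha0, chr_apply]
    simp [sg_zero]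
  · exact Submodule.sub_mem _ (op_part c ha0 ha1 hp) (op_part c ha0 ha1 hq)

/-- points with a coordinate zero -/
theorem op_zero [CharZero k] {p : ℙ k (J n → k)} {j : J n} (hj : p.rep j = 0) :
    op (-1) (chr 1) (Finsupp.single p 1) = 0 := by
  refine op_eq_zero neg_one_sq (chr 1) (h := Pi.single j 1) (act_of_zero (-1) fun i hi => ?_) ?_
  · by_cases hij : i = j
    · rw [hij]
      exact hj
    · exact absurd (Pi.single_eq_of_ne hij _) hi
  · rw [chr_apply, Finset.sum_eq_single j]
    · rw [Pi.single_eq_same, Pi.one_apply, one_mul, sg_one]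
      norm_num
    · intro i _ hij
      rw [Pi.single_eq_of_ne hij, mul_zero]
    · intro h
      exact absurd (Finset.mem_univ j) h

end Pool.Agent.HYW
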