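import Pool.Agent.HYW.Split
import Pool.Agent.HYW.Vanish

/-!
# Points with a kernel of dimension at least two

If the matrix `A - diag (z_i ^ 2 / y_i ^ 2)` has a kernel of dimension at least two then there is a
rational curve through the point on which the quotients `z_i / y_i` are constant, and it contains a
point with a zero coordinate.
-/

set_option autoImplicit false

noncomputable section

namespace Pool.Agent.HYW

open Pool.Agent.ZCyc Pool.Agent.DCI57
open scoped Classical LinearAlgebra.Projectivization

variable {k : Type} [Field k] {n : ℕ}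

/-- the character with all signs, for equal signs in both groups -/
theorem chr_one_eq {t : J n → ZMod 2} (h : ∀ i, t (zc i) = t (yc i)) : chr 1 t = 1 := by
  rw [chr_apply]
  have h1 : ∑ j, (1 : J n → ZMod 2) j * t j = 0 := by
    rw [sum_J, ← Finset.sum_add_distrib]
    refine Finset.sum_eq_zero fun i _ => ?_
    rw [h i]
    rcases zero_or_one (t (yc i)) with h2 | h2 <;> rw [h2] <;> rfl
  rw [h1, sg_zero]

theorem chr_one_single (j : J n) : chr 1 (Pi.single j 1 : J n → ZMod 2) = -1 := by
  rw [chr_apply, Finset.sum_eq_single j]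
  · rw [Pi.single_eq_same, Pi.one_apply, one_mul, sg_one]
  · intro i _ hij
    rw [Pi.single_eq_of_ne hij, mul_zero]
  · intro h
    exact absurd (Finset.mem_univ j) h

theorem op_corank [IsAlgClosed k] [CharZero k] {c : Fin (n + 1) → J n → k} {p : ℙ k (J n → k)}
    (hp : p ∈ W c) (hp0 : ∀ j, p.rep j ≠ 0) {s : J n → k} (hs : ∀ i, ∑ j, c i j * s j = 0)
    (hps : ∀ i, s (zc i) * p.rep (yc i) ^ 2 = s (yc i) * p.rep (zc i) ^ 2)
    (hne : ¬ ∃ a : k, ∀ j, s j = a * p.rep j ^ 2) :
    op (-1) (chr 1) (Finsupp.single p 1) ∈ ratEquiv ℚ (W c) := by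
  have hj0 : ∃ j, s j ≠ 0 := by
    by_contra hcon
    push Not at hcon
    exact hne ⟨0, fun j => by rw [hcon, zero_mul]⟩
  obtain ⟨j₀, hj₀⟩ := hj0
  set T : k := -(p.rep j₀ ^ 2) / s j₀ with hT
  have hT0 : T ≠ 0 := div_ne_zero (neg_ne_zero.2 (pow_ne_zero 2 (hp0 j₀))) hj₀
  have hTs : p.rep j₀ ^ 2 + s j₀ * T = 0 := by
    rw [hT, mul_div_cancel₀ _ hj₀, add_neg_cancel]
  choose r hr using fun j => IsAlgClosed.exists_pow_nat_eq (p.rep j ^ 2 + s j * T) (n := 2)
    (by norm_num)
  have hr0 : r ≠ 0 := by
    intro h
    apply hne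
    refine ⟨-T⁻¹, fun j => ?_⟩
    have h1 := hr j
    rw [h, Pi.zero_apply, zero_pow (by norm_num)] at h1
    have h2 : s j * T = -(p.rep j ^ 2) := eq_neg_of_add_eq_zero_right h1.symm
    field_simp
    exact h2
  obtain ⟨b, hb0, hb⟩ := mk_rep_exists hr0
  set q : ℙ k (J n → k) := Projectivization.mk k r hr0 with hq
  have hqz : q.rep j₀ = 0 := by
    have h1 : r j₀ ^ 2 = 0 := by rw [hr, hTs]
    rw [hb, (pow_eq_zero_iff (by norm_num)).1 h1, mul_zero]
  obtain ⟨g, h, hgh⟩ := relation (R := ℚ) (m := 2) (ζ := -1) prim (c := c)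
    (P := fun j => Polynomial.C (p.rep j ^ 2) + Polynomial.C (s j) * Polynomial.X)
    (fun i => by
      have h1 : ∀ j, Polynomial.C (c i j) * (Polynomial.C (p.rep j ^ 2) +
          Polynomial.C (s j) * Polynomial.X) = Polynomial.C (c i j * p.rep j ^ 2) +
          Polynomial.C (c i j * s j) * Polynomial.X := by
        intro j
        simp only [map_mul]
        ring
      rw [Finset.sum_congr rfl fun j _ => h1 j, Finset.sum_add_distrib, ← Finset.sum_mul,
        ← map_sum, ← map_sum, hp i, hs i]
      simp) (a := 0) (b := T) (p := p) (q := q) (d := 1) (e := (b ^ 2)⁻¹) one_ne_zero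
    (inv_ne_zero (pow_ne_zero 2 hb0)) (fun j => by simp) (fun j => by
      rw [hb, mul_pow, hr, inv_mul_cancel_left₀ (pow_ne_zero 2 hb0)]
      simp) (chr 1)
    (fun {F} _ _ _ _ x hx τ t ht => by
      have hP : ∀ j, x j ≠ 0 := by
        intro j h0
        have h1 := hx j
        rw [h0, zero_pow (by norm_num)] at h1
        have h2 := (map_eq_zero _).1 h1.symm
        have h3 := (map_eq_zero_iff _ (RatFunc.algebraMap_injective k)).1 h2
        have h4 := congrArg (Polynomial.eval 0) h3
        simp at h4
        exact hp0 j h4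
      apply chr_one_eq
      intro i
      -- the quotient is a constant
      have h1 : x (zc i) ^ 2 * algebraMap k F (p.rep (yc i)) ^ 2 =
          x (yc i) ^ 2 * algebraMap k F (p.rep (zc i)) ^ 2 := by
        have hk : ∀ a : k, algebraMap k F a = algebraMap (RatFunc k) F
            (algebraMap (Polynomial k) (RatFunc k) (Polynomial.C a)) := by
          intro a
          rw [IsScalarTower.algebraMap_apply k (RatFunc k) F]
          rfl
        have h2 : Polynomial.C (s (zc i)) * Polynomial.C (p.rep (yc i)) ^ 2 =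
            Polynomial.C (s (yc i)) * Polynomial.C (p.rep (zc i)) ^ 2 := by
          rw [← map_pow, ← map_pow, ← map_mul, ← map_mul, hps i]
        have h3 : (Polynomial.C (p.rep (zc i) ^ 2) + Polynomial.C (s (zc i)) * Polynomial.X) *
            Polynomial.C (p.rep (yc i)) ^ 2 =
            (Polynomial.C (p.rep (yc i) ^ 2) + Polynomial.C (s (yc i)) * Polynomial.X) *
            Polynomial.C (p.rep (zc i)) ^ 2 := by
          rw [map_pow, map_pow]
          linear_combination (Polynomial.X) * h2
        have h4 := congrArg (fun P => algebraMap (RatFunc k) F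
          (algebraMap (Polynomial k) (RatFunc k) P)) h3
        simp only [map_mul _ (_ + _), map_mul, map_pow (algebraMap (Polynomial k) (RatFunc k)),
          map_pow (algebraMap (RatFunc k) F)] at h4
        rw [hx, hx, hk, hk]
        exact h4
      have h2 : (x (zc i) * algebraMap k F (p.rep (yc i))) ^ 2 =
          (x (yc i) * algebraMap k F (p.rep (zc i))) ^ 2 := by
        rw [mul_pow, mul_pow]
        exact h1
      have hτk : ∀ a : k, τ (algebraMap k F a) = algebraMap k F a := by
        intro a
        rw [IsScalarTower.algebraMap_apply k (RatFunc k) F]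
        exact τ.commutes _
      have h3 : ∃ a : k, a ≠ 0 ∧ x (zc i) = algebraMap k F a * x (yc i) := by
        have hy : algebraMap k F (p.rep (yc i)) ≠ 0 := by
          rw [Ne, map_eq_zero]
          exact hp0 _
        rcases sq_eq_sq_iff_eq_or_eq_neg.1 h2 with h | h
        · refine ⟨p.rep (zc i) / p.rep (yc i), div_ne_zero (hp0 _) (hp0 _), ?_⟩
          rw [map_div₀, div_mul_eq_mul_div, eq_div_iff hy, h]
          ring
        · refine ⟨-(p.rep (zc i) / p.rep (yc i)), neg_ne_zero.2 (div_ne_zero (hp0 _) (hp0 _)), ?_⟩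
          rw [map_neg, map_div₀, neg_mul, div_mul_eq_mul_div, ← neg_div, eq_div_iff hy, h]
          ring
      obtain ⟨a, ha, h3⟩ := h3
      have h4 := ht (zc i)
      rw [h3, map_mul, hτk, ht (yc i)] at h4
      have h5 : algebraMap k F (((-1 : kˣ) ^ (t (yc i)).val : kˣ) : k) =
          algebraMap k F (((-1 : kˣ) ^ (t (zc i)).val : kˣ) : k) := by
        have ha' : algebraMap k F a ≠ 0 := by
          rw [Ne, map_eq_zero]
          exact ha
        apply mul_right_cancel₀ (mul_ne_zero ha' (hP (yc i)))
        linear_combination h4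
      have h6 := (algebraMap k F).injective h5
      have hne2 : (-1 : k) ≠ 1 := by
        intro h
        have h7 : (2 : k) = 0 := by linear_combination -h
        exact two_ne_zero h7
      rcases zero_or_one (t (yc i)) with h7 | h7 <;> rcases zero_or_one (t (zc i)) with h8 | h8
      · rw [h7, h8]
      · exfalso
        rw [h7, h8] at h6
        apply hne2
        simpa [show (1 : ZMod 2).val = 1 from rfl, show (0 : ZMod 2).val = 0 from rfl] using h6.symm
      · exfalso
        rw [h7, h8] at h6
        apply hne2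
        simpa [show (1 : ZMod 2).val = 1 from rfl, show (0 : ZMod 2).val = 0 from rfl] using h6
      · rw [h7, h8])
  have h1 : op (-1) (chr 1) (Finsupp.single (act (-1 : kˣ) h q) 1) = 0 :=
    op_zero ((act_rep_zero (-1) h q j₀).2 hqz)
  rw [h1, sub_zero] at hgh
  rw [← op_act neg_one_sq (chr 1) g p]
  exact Submodule.smul_mem _ _ hgh

end Pool.Agent.HYW
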