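import Pool.Agent.DCI57.Defs
import Pool.Agent.TInc.OrdDiv

/-!
# Complete intersections of diagonal quadrics: definitions

`c` is a matrix with `n + 1` rows and `2 n + 2` columns, `W c` is the intersection of the `n + 1` quadrics
`∑ j, c i j * t j ^ 2 = 0` in the projective space of dimension `2 n + 1`. If all maximal minors of `c`
are different from zero (`GP`) then it is smooth of dimension `n`, with trivial canonical bundle.
-/

set_option autoImplicit false

noncomputable section

namespace Pool.Agent.HYW

open Pool.Agent.ZCyc Pool.Agent.Dess Pool.Agent.TInc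
open scoped Classical LinearAlgebra.Projectivization

variable {k : Type} [Field k] {n : ℕ}

/-- the set of the coordinates -/
abbrev J (n : ℕ) : Type := Fin (2 * n + 2)

/-- the intersection of the quadrics -/
def W (c : Fin (n + 1) → J n → k) : Set (ℙ k (J n → k)) := DCI57.Diag 2 c

/-- all maximal minors are different from zero -/
def GP (c : Fin (n + 1) → J n → k) : Prop :=
  ∀ s : Fin (n + 1) → J n, Function.Injective s → (Matrix.of fun i j => c i (s j)).det ≠ 0

/-- class functions of two points of `W c` -/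
structure IsCl2 [IsAlgClosed k] [CharZero k] (c : Fin (n + 1) → J n → k) {V : Type}
    [AddCommGroup V] [Module ℚ V] (F : ℙ k (J n → k) → ℙ k (J n → k) → V) : Prop where
  rel : ∀ (K : Type) [Field K] [Algebra k K] (hK : IsCurve k K) (x y : J n → K)
    (φ ψ : Place k K → ℙ k (J n → k)) (f : K), f ≠ 0 →
    (∀ i, ∑ j, algebraMap k K (c i j) * x j ^ 2 = 0) →
    (∀ i, ∑ j, algebraMap k K (c i j) * y j ^ 2 = 0) →
    (∀ v, DCI57.IsValue v x (φ v)) → (∀ v, DCI57.IsValue v y (ψ v)) →
    ((dv hK f).sum fun v a => (a : ℚ) • F (φ v) (ψ v)) = 0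
  left : ∀ q ∈ W c, ∀ z ∈ DCI57.ratEquiv ℚ (W c), (z.sum fun p a => a • F p q) = 0
  right : ∀ p ∈ W c, ∀ z ∈ DCI57.ratEquiv ℚ (W c), (z.sum fun q a => a • F p q) = 0

end Pool.Agent.HYW
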