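import Pool.Agent.DCI57.Act
import Pool.Agent.Dess.Dede

/-!
# Values of points with coordinates in the function field of a curve
-/

set_option autoImplicit false

noncomputable section

namespace Pool.Agent.HYW

open Pool.Agent.ZCyc Pool.Agent.Dess
open scoped Classical LinearAlgebra.Projectivization

variable {k : Type} [Field k] [IsAlgClosed k] [CharZero k] {K : Type} [Field K] [Algebra k K]

/-- a point with coordinates in the function field of a curve has a value at every place -/
theorem exists_val (hK : IsCurve k K) (v : Place k K) {J : Type} [Fintype J] {x : J → K}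
    (hx : x ≠ 0) : ∃ p, DCI57.IsValue v x p := by
  have hx' : ∃ j, x j ≠ 0 := by
    by_contra hcon
    push Not at hcon
    exact hx (funext hcon)
  obtain ⟨j₀, hj₀⟩ := hx'
  obtain ⟨i, -, hi⟩ := Finset.exists_max_image Finset.univ (fun j => v.ring.valuation (x j))
    ⟨j₀, Finset.mem_univ j₀⟩
  have hxi : x i ≠ 0 := by
    intro h0
    have h1 := hi j₀ (Finset.mem_univ j₀)
    simp only [h0, map_zero] at h1
    exact hj₀ ((map_eq_zero _).1 (le_zero_iff.1 h1))
  have h2 : ∀ j, ∃ c : k, v.At (x j / x i) c := by
    intro j
    apply exists_at hK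
    rw [← v.ring.valuation_le_one_iff, map_div₀]
    exact div_le_one_of_le₀ (hi j (Finset.mem_univ j)) zero_le
  choose c hc using h2
  have hci : c i = 1 := by
    have h3 := hc i
    rw [div_self hxi] at h3
    exact h3.unique (by simpa using Place.at_const (v := v) (1 : k))
  have hc0 : c ≠ 0 := by
    intro h0
    rw [h0] at hci
    exact zero_ne_one hci
  obtain ⟨a, ha, h4⟩ := DCI57.mk_rep_exists hc0
  refine ⟨Projectivization.mk k c hc0, algebraMap k K a * (x i)⁻¹, fun j => ?_⟩
  have h5 := (Place.at_const (v := v) a).mul (hc j)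
  rw [← h4] at h5
  have h6 : algebraMap k K a * (x i)⁻¹ * x j = algebraMap k K a * (x j / x i) := by
    rw [div_eq_mul_inv]
    ring
  rw [h6]
  exact h5

end Pool.Agent.HYW
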