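import Pool.Agent.HYW.Lift
import Pool.Agent.HYW.Val
import Pool.Agent.HYG.Roots
import Pool.Agent.HYG.Val
import Pool.Agent.GTC.Cvr

/-!
# The function of the quotients is a class function for `det (A - diag (w_i ^ 2)) = 0`
-/

set_option autoImplicit false

noncomputable section

namespace Pool.Agent.HYW

open Pool.Agent.ZCyc Pool.Agent.Dess Pool.Agent.TInc Pool.Agent.DCI57
open scoped Classical LinearAlgebra.Projectivization

variable {k : Type} [Field k] {n : ℕ} {V : Type} [AddCommGroup V] [Module ℚ V]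

/-- the character of the group of the two signs -/
def chi (k : Type) [Field k] (n : ℕ) : Fin (n + 1) → k → ℚ := fun _ u => if u = 1 then 1 else -1

theorem sq_one_cases {u : k} (hu : u ^ 2 = 1) : u = 1 ∨ u = -1 := by
  rw [← one_pow 2] at hu
  exact sq_eq_sq_iff_eq_or_eq_neg.1 hu

theorem chi_neg [CharZero k] (i : Fin (n + 1)) : chi k n i (-1) = -1 := by
  unfold chi
  rw [if_neg]
  intro h
  have h7 : (2 : k) = 0 := by linear_combination -h
  exact two_ne_zero h7

theorem chars_chi [CharZero k] : HYG.Chars (fun _ : Fin (n + 1) => 2) (chi k n) := by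
  refine ⟨fun i u u' hu hu' => ?_, fun i => ⟨-1, by norm_num, ?_⟩, fun i => if_pos rfl⟩
  · have h1 : chi k n i 1 = 1 := if_pos rfl
    rcases sq_one_cases hu with rfl | rfl <;>
      rcases sq_one_cases hu' with rfl | rfl
    · rw [mul_one, h1, mul_one]
    · rw [one_mul, h1, one_mul]
    · rw [mul_one, h1, mul_one]
    · rw [neg_mul_neg, mul_one, h1, chi_neg]
      norm_num
  · rw [chi_neg]
    norm_num

variable [IsAlgClosed k] [CharZero k] {c : Fin (n + 1) → J n → k}
  {F : ℙ k (J n → k) → ℙ k (J n → k) → V}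

omit [IsAlgClosed k] [CharZero k] in
/-- the values of the quotients -/
theorem cmp_val {K : Type} [Field K] [Algebra k K] {v : Place k K} {t : J n → K}
    (ht : ∀ i, ∑ j, algebraMap k K (c i j) * t j ^ 2 = 0) {w : Fin (n + 1) → K}
    (hw : ∀ i, t (zc i) = w i * t (yc i)) {p : ℙ k (J n → k)} (hp : DCI57.IsValue v t p) :
    Cmp c (fun i => HYG.vl v (w i)) p := by
  have hmem : p ∈ W c := hp.mem_Diag ht
  obtain ⟨g, hg⟩ := DCI57.isValue_iff.1 hp
  refine ⟨hmem, fun i u hu => ?_, fun h0 i => ?_⟩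
  · have h1 := (HYG.vl_eq.1 hu).mul (hg (yc i))
    have h2 : w i * (g * t (yc i)) = g * t (zc i) := by
      rw [hw]
      ring
    rw [h2] at h1
    exact (hg (zc i)).unique h1
  · have h1 := (hg (zc i)).div (hg (yc i)) (h0 (yc i))
    have h2 : g * t (yc i) ≠ 0 := by
      intro h3
      have h4 := hg (yc i)
      rw [h3] at h4
      exact h0 (yc i) (h4.unique (by simpa using Place.at_const (v := v) (0 : k)))
    have h3 : g * t (zc i) / (g * t (yc i)) = w i := by
      rw [div_eq_iff h2, hw]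
      ring
    rw [h3] at h1
    exact HYG.vl_of_at h1

omit [IsAlgClosed k] [CharZero k] in
/-- the coordinates of a point with the given quotients -/
theorem exists_coords (hc : GP c) {K : Type} [Field K] [Algebra k K] {w : Fin (n + 1) → K}
    (hw : (HYG.matK (mA c) fun i => w i ^ 2).det = 0) : ∃ x : Fin (n + 1) → K, x ≠ 0 ∧
      ∀ (K' : Type) [Field K'] [Algebra k K'] (φ : K →ₐ[k] K') (r : Fin (n + 1) → K'),
        (∀ i, r i ^ 2 = φ (x i)) → ∀ t : J n → K', (∀ i, t (yc i) = r i) →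
          (∀ i, t (zc i) = φ (w i) * r i) →
          t ≠ 0 ∧ ∀ i, ∑ j, algebraMap k K' (c i j) * t j ^ 2 = 0 := by
  obtain ⟨x, hx, hx'⟩ := Matrix.exists_mulVec_eq_zero_iff.2 hw
  refine ⟨x, hx, fun K' _ _ φ r hr t ht ht' => ⟨?_, ?_⟩⟩
  · rintro rfl
    apply hx
    funext i
    have h1 := hr i
    rw [← ht i] at h1
    have h2 : (0 : K') ^ 2 = φ (x i) := h1
    rw [zero_pow (by norm_num)] at h2
    exact (map_eq_zero _).1 h2.symm
  · refine (lin_iff hc fun j => t j ^ 2).2 fun i => ?_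
    have h1 := congrFun hx' i
    rw [HYG.matK, Matrix.sub_mulVec, Pi.sub_apply, Matrix.mulVec_diagonal, Pi.zero_apply,
      sub_eq_zero] at h1
    have h2 := congrArg φ h1
    rw [ht', mul_pow, hr, ← map_pow, ← map_mul, ← h2]
    simp only [Matrix.mulVec, dotProduct, Matrix.map_apply, map_sum, map_mul, AlgHom.commutes, ht,
      hr]

/-- the relations for the parts with all signs -/
theorem FF_rel (hF : IsCl2 c F) {K : Type} [Field K] [Algebra k K] (hK : IsCurve k K)
    {x y : J n → K} {φ ψ : Place k K → ℙ k (J n → k)} {f : K} (hf : f ≠ 0)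
    (hx : ∀ i, ∑ j, algebraMap k K (c i j) * x j ^ 2 = 0)
    (hy : ∀ i, ∑ j, algebraMap k K (c i j) * y j ^ 2 = 0)
    (hφ : ∀ v, DCI57.IsValue v x (φ v)) (hψ : ∀ v, DCI57.IsValue v y (ψ v)) :
    ((dv hK f).sum fun v a => (a : ℚ) • FF F (φ v) (ψ v)) = 0 := by
  have hact : ∀ (x : J n → K) (g : J n → ZMod 2),
      (∀ i, ∑ j, algebraMap k K (c i j) * x j ^ 2 = 0) → ∀ i, ∑ j, algebraMap k K (c i j) *
        (algebraMap k K (((-1 : kˣ) ^ (g j).val : kˣ) : k) * x j) ^ 2 = 0 := by
    intro x g hx i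
    rw [← hx i]
    refine Finset.sum_congr rfl fun j _ => ?_
    rw [mul_pow, ← map_pow, ← Units.val_pow_eq_pow_val, ← pow_mul, mul_comm _ 2, pow_mul,
      neg_one_sq, one_pow, Units.val_one, map_one, one_mul]
  unfold Finsupp.sum FF
  simp only [Finset.smul_sum]
  rw [Finset.sum_comm]
  refine Finset.sum_eq_zero fun g _ => ?_
  rw [Finset.sum_comm]
  refine Finset.sum_eq_zero fun h _ => ?_
  have h1 := hF.rel K hK _ _ (fun v => act (-1 : kˣ) g (φ v)) (fun v => act (-1 : kˣ) h (ψ v)) f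
    hf (hact x g hx) (hact y h hy) (fun v => (hφ v).act (-1) g) fun v => (hψ v).act (-1) h
  have h2 : ∀ v : Place k K, ((dv hK f v : ℤ) : ℚ) • (chr 1 g * chr 1 h) •
      F (act (-1 : kˣ) g (φ v)) (act (-1 : kˣ) h (ψ v)) = (chr 1 g * chr 1 h) •
        ((dv hK f v : ℤ) : ℚ) • F (act (-1 : kˣ) g (φ v)) (act (-1 : kˣ) h (ψ v)) := fun v =>
    smul_comm _ _ _
  rw [Finset.sum_congr rfl fun v _ => h2 v, ← Finset.smul_sum]
  unfold Finsupp.sum at h1
  rw [h1, smul_zero]

omit [IsAlgClosed k] [CharZero k] in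
theorem rot_eq (i : Fin (n + 1)) (u : k) (P : Fin (n + 1) → Option k) (j : Fin (n + 1)) :
    HYG.rot i u P j = if j = i then (P i).map fun w => u * w else P j := by
  unfold HYG.rot
  rw [Function.update_apply]

omit [IsAlgClosed k] in
theorem Lft.rot {P : Fin (n + 1) → Option k} {p : ℙ k (J n → k)} (h : Lft c P p)
    (i : Fin (n + 1)) : Lft c (HYG.rot i (-1) P)
      (act (-1 : kˣ) (Pi.single (zc i) 1 : J n → ZMod 2) p) := by
  refine ⟨act_mem neg_one_sq h.1 _, fun j hj => h.2.1 j ((act_rep_zero (-1) _ p j).1 hj),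
    fun j => ?_⟩
  rw [act_quot, rot_eq]
  have hy : (Pi.single (zc i) 1 : J n → ZMod 2) (yc j) = 0 := Pi.single_eq_of_ne (yc_ne_zc j i) _
  rw [hy]
  by_cases hj : j = i
  · subst hj
    rw [if_pos rfl, Pi.single_eq_same, h.2.2 j, show (1 : ZMod 2).val = 1 from rfl]
    simp
  · rw [if_neg hj, Pi.single_eq_of_ne (fun h => hj (zc_inj h)), h.2.2 j]
    simp

omit [IsAlgClosed k] [CharZero k] in
theorem rot_rot (i : Fin (n + 1)) (P : Fin (n + 1) → Option k) :
    HYG.rot i (-1) (HYG.rot i (-1) P) = P := by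
  funext j
  rw [rot_eq]
  by_cases hj : j = i
  · rw [if_pos hj, rot_eq, if_pos rfl, Option.map_map, hj]
    have h1 : ((fun w : k => -1 * w) ∘ fun w => -1 * w) = id := by
      funext w
      simp
    rw [h1, Option.map_id]
    rfl
  · rw [if_neg hj, rot_eq, if_neg hj]

/-- the vector with the coordinates `y = a`, `z = b` -/
def mk2 {K : Type} (a b : Fin (n + 1) → K) : J n → K := fun j => Sum.elim a b ((eJ n).symm j)

theorem mk2_yc {K : Type} (a b : Fin (n + 1) → K) (i : Fin (n + 1)) : mk2 a b (yc i) = a i := by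
  unfold mk2 yc
  rw [Equiv.symm_apply_apply, Sum.elim_inl]

theorem mk2_zc {K : Type} (a b : Fin (n + 1) → K) (i : Fin (n + 1)) : mk2 a b (zc i) = b i := by
  unfold mk2 zc
  rw [Equiv.symm_apply_apply, Sum.elim_inr]

/-- **The class function of the quotients.** -/
theorem isCls (hc : GP c) (hF : IsCl2 c F) :
    HYG.IsCls (mA c) (mA c) (fun _ => 2) (chi k n) (EE c F) := by
  have hone : ∀ (P : Fin (n + 1) → Option k) (i : Fin (n + 1)), HYG.rot i 1 P = P := by
    intro P i
    funext j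
    rw [rot_eq]
    by_cases hj : j = i
    · rw [if_pos hj, hj]
      have h1 : (fun w : k => 1 * w) = id := by
        funext w
        simp
      rw [h1, Option.map_id]
      rfl
    · rw [if_neg hj]
  have hchi : ∀ i, chi k n i 1 = 1 := fun i => if_pos rfl
  refine ⟨fun K _ _ hK w w' f hf hw hw' => ?_, fun P Q i u hu => ?_, fun P Q i u hu => ?_⟩
  · obtain ⟨x, hx, hx'⟩ := exists_coords hc hw
    obtain ⟨y, hy, hy'⟩ := exists_coords hc hw'
    obtain ⟨K', _, _, hK', φ, r, hr⟩ := HYG.exists_roots hK (r := (n + 1) + (n + 1))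
      (M := fun _ => 2) (fun _ => by norm_num) (Fin.append x y)
    have h1 : ∀ i, r (Fin.castAdd (n + 1) i) ^ 2 = φ (x i) := fun i => by
      rw [hr, Fin.append_left]
    have h2 : ∀ i, r (Fin.natAdd (n + 1) i) ^ 2 = φ (y i) := fun i => by
      rw [hr, Fin.append_right]
    set t : J n → K' := mk2 (fun i => r (Fin.castAdd (n + 1) i)) fun i =>
      φ (w i) * r (Fin.castAdd (n + 1) i) with ht
    set t' : J n → K' := mk2 (fun i => r (Fin.natAdd (n + 1) i)) fun i =>
      φ (w' i) * r (Fin.natAdd (n + 1) i) with ht'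
    obtain ⟨h3, h4⟩ := hx' K' φ _ h1 t (mk2_yc _ _) (mk2_zc _ _)
    obtain ⟨h5, h6⟩ := hy' K' φ _ h2 t' (mk2_yc _ _) (mk2_zc _ _)
    choose p hp using fun v : Place k K' => exists_val hK' v h3
    choose q hq using fun v : Place k K' => exists_val hK' v h5
    obtain ⟨N, hN, hN'⟩ := GTC.cvr_div hK hK' φ
    have hφf : φ f ≠ 0 := (map_ne_zero φ).2 hf
    have h7 := FF_rel hF hK' hφf h4 h6 hp hq
    have h8 := hN' f hf (W := V) (fun v => EE c F (fun i => HYG.vl v (w i))
      fun i => HYG.vl v (w' i)) (fun v => FF F (p v) (q v)) (fun v' v hv => by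
        rw [← EE_cmp hF (cmp_val h4 (w := fun i => φ (w i)) (fun i => by
            rw [ht, mk2_zc, mk2_yc]) (hp v'))
          (cmp_val h6 (w := fun i => φ (w' i)) (fun i => by
            rw [ht', mk2_zc, mk2_yc]) (hq v'))]
        simp only [HYG.vl_below hv])
    rw [h7] at h8
    have h9 := (smul_eq_zero.1 h8.symm).resolve_left (Nat.cast_ne_zero.2 hN.ne')
    rw [← h9]
    refine Finset.sum_congr rfl fun v _ => ?_
    exact (Int.cast_smul_eq_zsmul ℚ _ _).symm
  · rcases sq_one_cases hu with rfl | rfl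
    · rw [hone, hchi, one_smul]
    · rw [chi_neg]
      by_cases h : ∃ x : ℙ k (J n → k) × ℙ k (J n → k), Lft c P x.1 ∧ Lft c Q x.2
      · obtain ⟨⟨p, q⟩, h1, h2⟩ := h
        rw [EE_eq hF h1 h2, EE_eq hF (h1.rot i) h2, FF_act_left, chr_one_single]
      · have h' : ¬ ∃ x : ℙ k (J n → k) × ℙ k (J n → k), Lft c (HYG.rot i (-1) P) x.1 ∧
            Lft c Q x.2 := by
          rintro ⟨⟨p, q⟩, h1, h2⟩
          have h3 := h1.rot i
          rw [rot_rot] at h3
          exact h ⟨(_, q), h3, h2⟩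
        unfold EE
        rw [dif_neg h, dif_neg h', smul_zero]
  · rcases sq_one_cases hu with rfl | rfl
    · rw [hone, hchi, one_smul]
    · rw [chi_neg]
      by_cases h : ∃ x : ℙ k (J n → k) × ℙ k (J n → k), Lft c P x.1 ∧ Lft c Q x.2
      · obtain ⟨⟨p, q⟩, h1, h2⟩ := h
        rw [EE_eq hF h1 h2, EE_eq hF h1 (h2.rot i), FF_act_right, chr_one_single]
      · have h' : ¬ ∃ x : ℙ k (J n → k) × ℙ k (J n → k), Lft c P x.1 ∧
            Lft c (HYG.rot i (-1) Q) x.2 := by
          rintro ⟨⟨p, q⟩, h1, h2⟩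
          have h3 := h2.rot i
          rw [rot_rot] at h3
          exact h ⟨(p, act (-1 : kˣ) (Pi.single (zc i) 1 : J n → ZMod 2) q), h1, h3⟩
        unfold EE
        rw [dif_neg h, dif_neg h', smul_zero]

end Pool.Agent.HYW
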