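import Pool.Agent.HYW.FF

/-!
# Sign changes act on zero-cycles of degree zero by the character with all signs
-/

set_option autoImplicit false

noncomputable section

namespace Pool.Agent.HYW

open Pool.Agent.ZCyc Pool.Agent.DCI57
open scoped Classical LinearAlgebra.Projectivization

variable {k : Type} [Field k] {n : ℕ}

theorem op_act_one (g : J n → ZMod 2) (p : ℙ k (J n → k)) :
    op (-1) (chr 1) (Finsupp.single (act (-1 : kˣ) g p) (1 : ℚ)) =
      chr 1 g • op (-1) (chr 1) (Finsupp.single p 1) := by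
  have h1 := op_act (R := ℚ) neg_one_sq (chr (1 : J n → ZMod 2)) g p
  rw [← h1, smul_smul, chr_mul_self, one_smul]

/-- A sign change acts on the zero-cycles of degree zero of `W c` by its sign. -/
theorem act_diff [IsAlgClosed k] [CharZero k] (c : Fin (n + 1) → J n → k)
    {p q : ℙ k (J n → k)} (hp : p ∈ W c) (hq : q ∈ W c) (g : J n → ZMod 2) :
    (Finsupp.single (act (-1 : kˣ) g p) (1 : ℚ) - Finsupp.single (act (-1 : kˣ) g q) 1) -
      chr 1 g • (Finsupp.single p 1 - Finsupp.single q 1) ∈ ratEquiv ℚ (W c) := by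
  have h1 := Submodule.smul_mem _ (chr 1 g) (full_part c hp hq)
  have h2 := full_part c (act_mem neg_one_sq hp g) (act_mem neg_one_sq hq g)
  rw [op_act_one, op_act_one, ← smul_sub (chr 1 g)] at h2
  have h3 := Submodule.sub_mem _ h2 h1
  rw [smul_sub (chr 1 g) ((Fintype.card (J n → ZMod 2) : ℚ) • _) _, sub_sub_sub_cancel_right,
    smul_comm (chr 1 g), ← smul_sub] at h3
  have hN : (Fintype.card (J n → ZMod 2) : ℚ) ≠ 0 := Nat.cast_ne_zero.2 Fintype.card_ne_zero
  have h4 := Submodule.smul_mem _ (Fintype.card (J n → ZMod 2) : ℚ)⁻¹ h3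
  rwa [inv_smul_smul₀ hN] at h4

/-- Functions which kill `ratEquiv` -/
theorem eq_one [IsAlgClosed k] [CharZero k] (c : Fin (n + 1) → J n → k) {V : Type}
    [AddCommGroup V] [Module ℚ V] {G : ℙ k (J n → k) → V}
    (hG : ∀ z ∈ ratEquiv ℚ (W c), (z.sum fun p a => a • G p) = 0) {p q : ℙ k (J n → k)}
    (hp : p ∈ W c) (hq : q ∈ W c) (g : J n → ZMod 2) :
    G (act (-1 : kˣ) g p) - G (act (-1 : kˣ) g q) = chr 1 g • (G p - G q) := by
  have h1 := hG _ (act_diff c hp hq g)
  have h3 : ∀ z : ℙ k (J n → k) →₀ ℚ, (z.sum fun x a => a • G x) =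
      Finsupp.linearCombination ℚ G z := fun z => rfl
  rw [h3, map_sub, map_sub, map_smul, map_sub, Finsupp.linearCombination_single,
    Finsupp.linearCombination_single, Finsupp.linearCombination_single,
    Finsupp.linearCombination_single, one_smul, one_smul, one_smul, one_smul, sub_eq_zero] at h1
  exact h1

end Pool.Agent.HYW
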