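import Pool.Agent.HYW.ECls
import Pool.Agent.HYG.SwapAll

/-!
# Exchange of two zero-cycles of degree zero
-/

set_option autoImplicit false

noncomputable section

namespace Pool.Agent.HYW

open Pool.Agent.ZCyc Pool.Agent.DCI57
open scoped Classical LinearAlgebra.Projectivization

variable {k : Type} [Field k] {n : ℕ} {V : Type} [AddCommGroup V] [Module ℚ V]

/-- the quotients of a point -/
def quo (p : ℙ k (J n → k)) : Fin (n + 1) → Option k := fun i =>
  some (p.rep (zc i) / p.rep (yc i))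

theorem onY {c : Fin (n + 1) → J n → k} (hc : GP c) {p : ℙ k (J n → k)} (hp : p ∈ W c)
    (h0 : ∀ j, p.rep j ≠ 0) : HYG.OnY (mA c) (fun _ => 2) (quo p) := by
  refine Matrix.exists_mulVec_eq_zero_iff.1 ⟨fun i => p.rep (yc i) ^ 2, fun h => ?_, ?_⟩
  · exact pow_ne_zero 2 (h0 (yc 0)) (congrFun h 0)
  · funext i
    have h1 := (mem_W hc p).1 hp i
    have h2 : HYG.mat (mA c) (fun _ => 2) (quo p) = mA c -
        Matrix.diagonal fun i => (p.rep (zc i) / p.rep (yc i)) ^ 2 := by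
      ext i j
      simp only [HYG.mat, quo, Matrix.sub_apply, Matrix.diagonal_apply]
    rw [h2, Matrix.sub_mulVec, Pi.sub_apply, Matrix.mulVec_diagonal, ← h1, div_pow,
      div_mul_cancel₀ _ (pow_ne_zero 2 (h0 (yc i))), sub_self]
    rfl

variable [IsAlgClosed k] [CharZero k] {c : Fin (n + 1) → J n → k}
  {F : ℙ k (J n → k) → ℙ k (J n → k) → V}

theorem FF_swap (hc : GP c) (hF : IsCl2 c F) {p q : ℙ k (J n → k)} (hp : p ∈ W c)
    (hq : q ∈ W c) : FF F q p = (-1 : ℚ) ^ n • FF F p q := by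
  by_cases hp0 : ∀ j, p.rep j ≠ 0
  · by_cases hq0 : ∀ j, q.rep j ≠ 0
    · have h1 : Lft c (quo p) p := ⟨hp, hp0, fun _ => rfl⟩
      have h2 : Lft c (quo q) q := ⟨hq, hq0, fun _ => rfl⟩
      rw [← EE_eq hF h2 h1, ← EE_eq hF h1 h2]
      exact HYG.swap_all (i₀ := 0) (fun j => ⟨mA_ne hc 0 j, mA_ne hc j 0⟩) (fun _ => by norm_num)
        chars_chi (isCls hc hF) (onY hc hp hp0) (onY hc hq hq0)
    · push Not at hq0
      obtain ⟨j, hj⟩ := hq0
      rw [FF_zero_left F hj, FF_zero_right F hj, smul_zero]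
  · push Not at hp0
    obtain ⟨j, hj⟩ := hp0
    rw [FF_zero_left F hj, FF_zero_right F hj, smul_zero]

/-- **Exchange of two zero-cycles of degree zero.** -/
theorem eq_two (hc : GP c) (hF : IsCl2 c F) {p p' q q' : ℙ k (J n → k)} (hp : p ∈ W c)
    (hp' : p' ∈ W c) (hq : q ∈ W c) (hq' : q' ∈ W c) :
    F q p - F q' p - (F q p' - F q' p') =
      (-1 : ℚ) ^ n • (F p q - F p' q - (F p q' - F p' q')) := by
  have hN : ((Fintype.card (J n → ZMod 2) : ℚ) * Fintype.card (J n → ZMod 2)) ≠ 0 :=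
    mul_ne_zero (Nat.cast_ne_zero.2 Fintype.card_ne_zero) (Nat.cast_ne_zero.2 Fintype.card_ne_zero)
  apply smul_right_injective V hN
  show _ • _ = _ • _
  rw [FF_diff hF hq hq' hp hp', smul_comm _ ((-1 : ℚ) ^ n), FF_diff hF hp hp' hq hq',
    FF_swap hc hF hp hq, FF_swap hc hF hp hq', FF_swap hc hF hp' hq, FF_swap hc hF hp' hq',
    smul_sub, smul_sub, smul_sub]
  abel

end Pool.Agent.HYW
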