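import Pool.Agent.HYW.Corank

/-!
# The part of a class function with all signs
-/

set_option autoImplicit false

noncomputable section

namespace Pool.Agent.HYW

open Pool.Agent.ZCyc Pool.Agent.DCI57
open scoped Classical LinearAlgebra.Projectivization

variable {k : Type} [Field k] {n : ℕ} {V : Type} [AddCommGroup V] [Module ℚ V]

/-- the part of `F` with all signs, for both points -/
def FF (F : ℙ k (J n → k) → ℙ k (J n → k) → V) (p q : ℙ k (J n → k)) : V :=
  ∑ g : J n → ZMod 2, ∑ h : J n → ZMod 2, (chr 1 g * chr 1 h) •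
    F (act (-1 : kˣ) g p) (act (-1 : kˣ) h q)

/-- the values of the characters are `1` and `-1` -/
theorem chr_mul_self (a t : J n → ZMod 2) : chr a t * chr a t = 1 := by
  rw [chr_apply]
  rcases zero_or_one (∑ j, a j * t j) with h | h
  · rw [h, sg_zero, one_mul]
  · rw [h, sg_one]
    norm_num

theorem FF_act_left (F : ℙ k (J n → k) → ℙ k (J n → k) → V) (t : J n → ZMod 2)
    (p q : ℙ k (J n → k)) : FF F (act (-1 : kˣ) t p) q = chr 1 t • FF F p q := by
  unfold FF
  rw [← Equiv.sum_comp (Equiv.addRight t) fun g => ∑ h : J n → ZMod 2, (chr 1 g * chr 1 h) •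
    F (act (-1 : kˣ) g p) (act (-1 : kˣ) h q), Finset.smul_sum]
  refine Finset.sum_congr rfl fun g _ => ?_
  rw [Finset.smul_sum]
  refine Finset.sum_congr rfl fun h _ => ?_
  rw [act_act neg_one_sq, Equiv.coe_addRight, AddChar.map_add_eq_mul, smul_smul]
  congr 1
  calc chr 1 g * chr 1 h = chr 1 g * chr 1 h * (chr 1 t * chr 1 t) := by
        rw [chr_mul_self, mul_one]
    _ = chr 1 t * (chr 1 g * chr 1 t * chr 1 h) := by ring

theorem FF_act_right (F : ℙ k (J n → k) → ℙ k (J n → k) → V) (t : J n → ZMod 2)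
    (p q : ℙ k (J n → k)) : FF F p (act (-1 : kˣ) t q) = chr 1 t • FF F p q := by
  unfold FF
  rw [Finset.smul_sum]
  refine Finset.sum_congr rfl fun g _ => ?_
  rw [← Equiv.sum_comp (Equiv.addRight t) fun h => (chr 1 g * chr 1 h) •
    F (act (-1 : kˣ) g p) (act (-1 : kˣ) h q), Finset.smul_sum]
  refine Finset.sum_congr rfl fun h _ => ?_
  rw [act_act neg_one_sq, Equiv.coe_addRight, AddChar.map_add_eq_mul, smul_smul]
  congr 1
  calc chr 1 g * chr 1 h = chr 1 g * chr 1 h * (chr 1 t * chr 1 t) := by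
        rw [chr_mul_self, mul_one]
    _ = chr 1 t * (chr 1 g * (chr 1 h * chr 1 t)) := by ring

private theorem FF_neg {x : V} (h : x = (-1 : ℚ) • x) : x = 0 := by
  have h1 : (2 : ℚ) • x = 0 := by
    rw [two_smul]
    nth_rewrite 2 [h]
    rw [neg_one_smul, add_neg_cancel]
  exact (smul_eq_zero.1 h1).resolve_left (by norm_num)

theorem act_single {p : ℙ k (J n → k)} {j : J n} (hj : p.rep j = 0) :
    act (-1 : kˣ) (Pi.single j 1 : J n → ZMod 2) p = p := by
  refine act_of_zero (-1) fun i hi => ?_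
  by_cases hij : i = j
  · rw [hij]
    exact hj
  · exact absurd (Pi.single_eq_of_ne hij _) hi

theorem FF_zero_left (F : ℙ k (J n → k) → ℙ k (J n → k) → V) {p q : ℙ k (J n → k)} {j : J n}
    (hj : p.rep j = 0) : FF F p q = 0 := by
  have h1 := FF_act_left F (Pi.single j 1) p q
  rw [act_single hj, chr_one_single] at h1
  exact FF_neg h1

theorem FF_zero_right (F : ℙ k (J n → k) → ℙ k (J n → k) → V) {p q : ℙ k (J n → k)} {j : J n}
    (hj : q.rep j = 0) : FF F p q = 0 := by
  have h1 := FF_act_right F (Pi.single j 1) p q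
  rw [act_single hj, chr_one_single] at h1
  exact FF_neg h1

/-- the value of a linear extension at `op` -/
theorem sum_op (G : ℙ k (J n → k) → V) (p : ℙ k (J n → k)) :
    ((op (-1 : kˣ) (chr (1 : J n → ZMod 2)) (Finsupp.single p 1)).sum fun x a => a • G x) =
      ∑ g : J n → ZMod 2, chr 1 g • G (act (-1 : kˣ) g p) := by
  have h1 : ((op (-1 : kˣ) (chr (1 : J n → ZMod 2)) (Finsupp.single p 1)).sum
      fun x a => a • G x) = Finsupp.linearCombination ℚ G
        (op (-1 : kˣ) (chr (1 : J n → ZMod 2)) (Finsupp.single p 1)) := rfl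
  rw [h1, op_single, map_sum]
  refine Finset.sum_congr rfl fun g _ => ?_
  rw [Finsupp.linearCombination_single]

section

variable [IsAlgClosed k] [CharZero k] {c : Fin (n + 1) → J n → k}
  {F : ℙ k (J n → k) → ℙ k (J n → k) → V}

/-- if the part of `p` with all signs is rationally equivalent to zero -/
theorem FF_left (hF : IsCl2 c F) {p q : ℙ k (J n → k)} (hq : q ∈ W c)
    (hp : op (-1) (chr 1) (Finsupp.single p 1) ∈ ratEquiv ℚ (W c)) : FF F p q = 0 := by
  unfold FF
  rw [Finset.sum_comm]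
  refine Finset.sum_eq_zero fun h _ => ?_
  have h1 := hF.left _ (act_mem neg_one_sq hq h) _ hp
  rw [sum_op fun x => F x (act (-1 : kˣ) h q)] at h1
  have h2 : ∑ g : J n → ZMod 2, (chr 1 g * chr 1 h) • F (act (-1 : kˣ) g p)
      (act (-1 : kˣ) h q) = chr 1 h • ∑ g : J n → ZMod 2, chr 1 g • F (act (-1 : kˣ) g p)
        (act (-1 : kˣ) h q) := by
    rw [Finset.smul_sum]
    refine Finset.sum_congr rfl fun g _ => ?_
    rw [smul_smul, mul_comm]
  rw [h2, h1, smul_zero]

theorem FF_right (hF : IsCl2 c F) {p q : ℙ k (J n → k)} (hp : p ∈ W c)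
    (hq : op (-1) (chr 1) (Finsupp.single q 1) ∈ ratEquiv ℚ (W c)) : FF F p q = 0 := by
  unfold FF
  refine Finset.sum_eq_zero fun g _ => ?_
  have h1 := hF.right _ (act_mem neg_one_sq hp g) _ hq
  rw [sum_op fun x => F (act (-1 : kˣ) g p) x] at h1
  have h2 : ∑ h : J n → ZMod 2, (chr 1 g * chr 1 h) • F (act (-1 : kˣ) g p)
      (act (-1 : kˣ) h q) = chr 1 g • ∑ h : J n → ZMod 2, chr 1 h • F (act (-1 : kˣ) g p)
        (act (-1 : kˣ) h q) := by
    rw [Finset.smul_sum]
    refine Finset.sum_congr rfl fun h _ => ?_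
    rw [smul_smul]
  rw [h2, h1, smul_zero]

/-- `N ^ 2` times the value at differences of points, `N = 2 ^ (2 n + 2)` -/
theorem FF_diff (hF : IsCl2 c F) {p p' q q' : ℙ k (J n → k)} (hp : p ∈ W c) (hp' : p' ∈ W c)
    (hq : q ∈ W c) (hq' : q' ∈ W c) :
    ((Fintype.card (J n → ZMod 2) : ℚ) * Fintype.card (J n → ZMod 2)) •
      (F p q - F p' q - (F p q' - F p' q')) =
      FF F p q - FF F p' q - (FF F p q' - FF F p' q') := by
  set N : ℚ := (Fintype.card (J n → ZMod 2) : ℚ) with hN
  -- the first point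
  have h1 : ∀ r ∈ W c, N • (F p r - F p' r) =
      ∑ g : J n → ZMod 2, chr 1 g • F (act (-1 : kˣ) g p) r -
        ∑ g : J n → ZMod 2, chr 1 g • F (act (-1 : kˣ) g p') r := by
    intro r hr
    have h2 := hF.left r hr _ (full_part c hp hp')
    have h3 : ∀ z : ℙ k (J n → k) →₀ ℚ, (z.sum fun x a => a • F x r) =
        Finsupp.linearCombination ℚ (fun x => F x r) z := fun z => rfl
    rw [h3, map_sub, map_smul, map_sub, map_sub, Finsupp.linearCombination_single,
      Finsupp.linearCombination_single, one_smul, one_smul, ← h3, ← h3, sum_op, sum_op,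
      sub_eq_zero] at h2
    exact h2
  have h2 : ∀ r ∈ W c, N • (F r q - F r q') =
      ∑ h : J n → ZMod 2, chr 1 h • F r (act (-1 : kˣ) h q) -
        ∑ h : J n → ZMod 2, chr 1 h • F r (act (-1 : kˣ) h q') := by
    intro r hr
    have h2 := hF.right r hr _ (full_part c hq hq')
    have h3 : ∀ z : ℙ k (J n → k) →₀ ℚ, (z.sum fun x a => a • F r x) =
        Finsupp.linearCombination ℚ (fun x => F r x) z := fun z => rfl
    rw [h3, map_sub, map_smul, map_sub, map_sub, Finsupp.linearCombination_single,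
      Finsupp.linearCombination_single, one_smul, one_smul, ← h3, ← h3, sum_op, sum_op,
      sub_eq_zero] at h2
    exact h2
  have h3 : ∀ p ∈ W c, N • (∑ g : J n → ZMod 2, chr 1 g • F (act (-1 : kˣ) g p) q -
      ∑ g : J n → ZMod 2, chr 1 g • F (act (-1 : kˣ) g p) q') = FF F p q - FF F p q' := by
    intro p hp
    unfold FF
    rw [← Finset.sum_sub_distrib, ← Finset.sum_sub_distrib, Finset.smul_sum]
    refine Finset.sum_congr rfl fun g _ => ?_
    rw [← smul_sub, smul_comm, h2 _ (act_mem neg_one_sq hp g), smul_sub, Finset.smul_sum,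
      Finset.smul_sum]
    simp only [smul_smul]
  have h4 : N • (F p q - F p' q - (F p q' - F p' q')) =
      (∑ g : J n → ZMod 2, chr 1 g • F (act (-1 : kˣ) g p) q -
        ∑ g : J n → ZMod 2, chr 1 g • F (act (-1 : kˣ) g p) q') -
      (∑ g : J n → ZMod 2, chr 1 g • F (act (-1 : kˣ) g p') q -
        ∑ g : J n → ZMod 2, chr 1 g • F (act (-1 : kˣ) g p') q') := by
    rw [smul_sub, h1 q hq, h1 q' hq']
    abel
  rw [mul_smul, h4, smul_sub, h3 p hp, h3 p' hp']
  abel

end

end Pool.Agent.HYW
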