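import Pool.Agent.HYW.FF
import Pool.Agent.HYG.Defs

/-!
# The class function in the quotients `z_i / y_i`
-/

set_option autoImplicit false

noncomputable section

namespace Pool.Agent.HYW

open Pool.Agent.ZCyc Pool.Agent.DCI57
open scoped Classical LinearAlgebra.Projectivization

variable {k : Type} [Field k] {n : ℕ} {V : Type} [AddCommGroup V] [Module ℚ V]

/-- `p` is a point of `W c` whose coordinates are different from zero, and `P` consists of the
quotients `z_i / y_i` -/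
def Lft (c : Fin (n + 1) → J n → k) (P : Fin (n + 1) → Option k) (p : ℙ k (J n → k)) : Prop :=
  p ∈ W c ∧ (∀ j, p.rep j ≠ 0) ∧ ∀ i, P i = some (p.rep (zc i) / p.rep (yc i))

/-- the class function in the quotients -/
def EE (c : Fin (n + 1) → J n → k) (F : ℙ k (J n → k) → ℙ k (J n → k) → V)
    (P Q : Fin (n + 1) → Option k) : V :=
  if h : ∃ x : ℙ k (J n → k) × ℙ k (J n → k), Lft c P x.1 ∧ Lft c Q x.2 then
    FF F h.choose.1 h.choose.2 else 0

/-- two points whose squares are proportional -/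
theorem exists_act {p p' : ℙ k (J n → k)} {a b : k} (hb : b ^ 2 = a)
    (h : ∀ j, p'.rep j ^ 2 = a * p.rep j ^ 2) : ∃ t : J n → ZMod 2, p' = act (-1 : kˣ) t p := by
  have h1 : ∀ j, ∃ t : ZMod 2, p'.rep j = b * ((((-1 : kˣ) ^ t.val : kˣ) : k) * p.rep j) := by
    intro j
    have h2 : p'.rep j ^ 2 = (b * p.rep j) ^ 2 := by rw [h, mul_pow, hb]
    rcases sq_eq_sq_iff_eq_or_eq_neg.1 h2 with h3 | h3
    · exact ⟨0, by rw [h3]; simp⟩
    · refine ⟨1, ?_⟩
      rw [h3, show (1 : ZMod 2).val = 1 from rfl, pow_one, Units.val_neg, Units.val_one]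
      ring
  choose t ht using h1
  refine ⟨t, ?_⟩
  have hb0 : b ≠ 0 := by
    rintro rfl
    apply p'.rep_nonzero
    funext j
    rw [ht j, zero_mul]
    rfl
  rw [← p'.mk_rep]
  unfold act
  rw [Projectivization.mk_eq_mk_iff']
  exact ⟨b, funext fun j => (ht j).symm⟩

theorem sgn_inj [CharZero k] {s t : ZMod 2}
    (h : (((-1 : kˣ) ^ s.val : kˣ) : k) = (((-1 : kˣ) ^ t.val : kˣ) : k)) : s = t := by
  have hne2 : (-1 : k) ≠ 1 := by
    intro h
    have h7 : (2 : k) = 0 := by linear_combination -h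
    exact two_ne_zero h7
  rcases zero_or_one s with h7 | h7 <;> rcases zero_or_one t with h8 | h8
  · rw [h7, h8]
  · exfalso
    rw [h7, h8] at h
    apply hne2
    simpa [show (1 : ZMod 2).val = 1 from rfl, show (0 : ZMod 2).val = 0 from rfl] using h.symm
  · exfalso
    rw [h7, h8] at h
    apply hne2
    simpa [show (1 : ZMod 2).val = 1 from rfl, show (0 : ZMod 2).val = 0 from rfl] using h
  · rw [h7, h8]

/-- the quotient of a point and its image under a sign change -/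
theorem act_quot (t : J n → ZMod 2) (p : ℙ k (J n → k)) (i j : J n) :
    (act (-1 : kˣ) t p).rep i / (act (-1 : kˣ) t p).rep j =
      ((((-1 : kˣ) ^ (t i).val : kˣ) : k) / (((-1 : kˣ) ^ (t j).val : kˣ) : k)) *
        (p.rep i / p.rep j) := by
  obtain ⟨a, ha, h⟩ := mk_rep_exists (x := fun j => (((-1 : kˣ) ^ (t j).val : kˣ) : k) * p.rep j)
    (by
      intro h
      apply p.rep_nonzero
      funext j
      have h1 := congrFun h j
      exact (Units.mul_right_eq_zero _).1 h1)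
  have h1 : ∀ j, (act (-1 : kˣ) t p).rep j = a * ((((-1 : kˣ) ^ (t j).val : kˣ) : k) * p.rep j) :=
    h
  rw [h1, h1, mul_div_mul_left _ _ ha, mul_div_mul_comm]

section

variable [IsAlgClosed k] [CharZero k] {c : Fin (n + 1) → J n → k}
  {F : ℙ k (J n → k) → ℙ k (J n → k) → V}

/-- the quotients determine the class, or it is zero -/
theorem lift_cases {P : Fin (n + 1) → Option k} {p p' : ℙ k (J n → k)} (h : Lft c P p)
    (h' : Lft c P p') : (∃ t : J n → ZMod 2, p' = act (-1 : kˣ) t p ∧ chr 1 t = 1) ∨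
      (op (-1) (chr 1) (Finsupp.single p 1) ∈ ratEquiv ℚ (W c) ∧
        op (-1) (chr 1) (Finsupp.single p' 1) ∈ ratEquiv ℚ (W c)) := by
  obtain ⟨hp, h0, hP⟩ := h
  obtain ⟨hp', h0', hP'⟩ := h'
  have hq : ∀ i, p'.rep (zc i) / p'.rep (yc i) = p.rep (zc i) / p.rep (yc i) := fun i =>
    Option.some.inj ((hP' i).symm.trans (hP i))
  have hq' : ∀ i, p'.rep (zc i) * p.rep (yc i) = p.rep (zc i) * p'.rep (yc i) := fun i =>
    (div_eq_div_iff (h0' _) (h0 _)).1 (hq i)
  by_cases hprop : ∃ a : k, ∀ j, p'.rep j ^ 2 = a * p.rep j ^ 2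
  · left
    obtain ⟨a, ha⟩ := hprop
    obtain ⟨b, hb⟩ := IsAlgClosed.exists_pow_nat_eq a (n := 2) (by norm_num)
    obtain ⟨t, ht⟩ := exists_act hb ha
    refine ⟨t, ht, chr_one_eq fun i => sgn_inj (k := k) ?_⟩
    have h1 := hq i
    rw [ht, act_quot, mul_eq_right₀ (div_ne_zero (h0 _) (h0 _)), div_eq_one_iff_eq
      (Units.ne_zero _)] at h1
    exact h1
  · right
    constructor
    · refine op_corank hp h0 (s := fun j => p'.rep j ^ 2) hp' (fun i => ?_) hprop
      rw [← mul_pow, ← mul_pow, hq' i]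
      ring
    · refine op_corank hp' h0' (s := fun j => p.rep j ^ 2) hp (fun i => ?_) ?_
      · rw [← mul_pow, ← mul_pow, ← hq' i]
        ring
      · rintro ⟨a, ha⟩
        apply hprop
        have ha0 : a ≠ 0 := by
          rintro rfl
          have h1 := ha (yc 0)
          rw [zero_mul] at h1
          exact h0 _ ((pow_eq_zero_iff (by norm_num)).1 h1)
        exact ⟨a⁻¹, fun j => by rw [ha j, inv_mul_cancel_left₀ ha0]⟩

theorem FF_lift (hF : IsCl2 c F) {P Q : Fin (n + 1) → Option k} {p p' q q' : ℙ k (J n → k)}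
    (hp : Lft c P p) (hp' : Lft c P p') (hq : Lft c Q q) (hq' : Lft c Q q') :
    FF F p q = FF F p' q' := by
  have h1 : FF F p q = FF F p' q := by
    rcases lift_cases hp hp' with ⟨t, ht, h⟩ | ⟨h, h'⟩
    · rw [ht, FF_act_left, h, one_smul]
    · rw [FF_left hF hq.1 h, FF_left hF hq.1 h']
  have h2 : FF F p' q = FF F p' q' := by
    rcases lift_cases hq hq' with ⟨t, ht, h⟩ | ⟨h, h'⟩
    · rw [ht, FF_act_right, h, one_smul]
    · rw [FF_right hF hp'.1 h, FF_right hF hp'.1 h']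
  rw [h1, h2]

theorem EE_eq (hF : IsCl2 c F) {P Q : Fin (n + 1) → Option k} {p q : ℙ k (J n → k)}
    (hp : Lft c P p) (hq : Lft c Q q) : EE c F P Q = FF F p q := by
  have h : ∃ x : ℙ k (J n → k) × ℙ k (J n → k), Lft c P x.1 ∧ Lft c Q x.2 := ⟨(p, q), hp, hq⟩
  unfold EE
  rw [dif_pos h]
  exact FF_lift hF h.choose_spec.1 hp h.choose_spec.2 hq

/-- the quotients of a point, possibly with zero coordinates -/
structure Cmp (c : Fin (n + 1) → J n → k) (P : Fin (n + 1) → Option k) (p : ℙ k (J n → k)) :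
    Prop where
  mem : p ∈ W c
  fin : ∀ i u, P i = some u → p.rep (zc i) = u * p.rep (yc i)
  val : (∀ j, p.rep j ≠ 0) → ∀ i, P i = some (p.rep (zc i) / p.rep (yc i))

theorem Cmp.op_zero' {P : Fin (n + 1) → Option k} {p p₁ : ℙ k (J n → k)} (h : Cmp c P p)
    {j : J n} (hj : p.rep j = 0) (h₁ : Lft c P p₁) :
    op (-1) (chr 1) (Finsupp.single p₁ 1) ∈ ratEquiv ℚ (W c) := by
  refine op_corank h₁.1 h₁.2.1 (s := fun j => p.rep j ^ 2) h.mem (fun i => ?_) ?_
  · have h1 := h.fin i _ (h₁.2.2 i)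
    have h2 := h₁.2.1 (yc i)
    rw [h1, mul_pow, div_pow]
    field_simp
  · rintro ⟨a, ha⟩
    have h1 := ha j
    rw [hj, zero_pow (by norm_num), eq_comm, mul_eq_zero, or_iff_left
      (pow_ne_zero 2 (h₁.2.1 j))] at h1
    apply p.rep_nonzero
    funext i
    have h2 := ha i
    rw [h1, zero_mul] at h2
    exact (pow_eq_zero_iff (by norm_num)).1 h2

/-- **Comparison.** -/
theorem EE_cmp (hF : IsCl2 c F) {P Q : Fin (n + 1) → Option k} {p q : ℙ k (J n → k)}
    (hp : Cmp c P p) (hq : Cmp c Q q) : EE c F P Q = FF F p q := by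
  by_cases hp0 : ∀ j, p.rep j ≠ 0
  · by_cases hq0 : ∀ j, q.rep j ≠ 0
    · exact EE_eq hF ⟨hp.mem, hp0, hp.val hp0⟩ ⟨hq.mem, hq0, hq.val hq0⟩
    · push Not at hq0
      obtain ⟨j, hj⟩ := hq0
      rw [FF_zero_right F hj]
      by_cases h : ∃ x : ℙ k (J n → k) × ℙ k (J n → k), Lft c P x.1 ∧ Lft c Q x.2
      · obtain ⟨⟨p₁, q₁⟩, h1, h2⟩ := h
        rw [EE_eq hF h1 h2]
        exact FF_right hF h1.1 (hq.op_zero' hj h2)
      · unfold EE
        rw [dif_neg h]
  · push Not at hp0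
    obtain ⟨j, hj⟩ := hp0
    rw [FF_zero_left F hj]
    by_cases h : ∃ x : ℙ k (J n → k) × ℙ k (J n → k), Lft c P x.1 ∧ Lft c Q x.2
    · obtain ⟨⟨p₁, q₁⟩, h1, h2⟩ := h
      rw [EE_eq hF h1 h2]
      exact FF_left hF h2.1 (hp.op_zero' hj h1)
    · unfold EE
      rw [dif_neg h]

end

end Pool.Agent.HYW
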