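import Pool.Agent.HYW.Defs
import Pool.Agent.HYW.Chr
import Mathlib.LinearAlgebra.Matrix.NonsingularInverse

/-!
# Two groups of coordinates

The coordinates `y_i = t (yc i)` and `z_i = t (zc i)`. The equations are `z_i ^ 2 = ∑ j, A i j * y_j ^ 2`,
where `A = mA c`. All entries of `A` are different from zero.
-/

set_option autoImplicit false

noncomputable section

namespace Pool.Agent.HYW

open Pool.Agent.ZCyc
open scoped Classical LinearAlgebra.Projectivization

variable {k : Type} [Field k] {n : ℕ}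

/-- the two groups of coordinates -/
def eJ (n : ℕ) : Fin (n + 1) ⊕ Fin (n + 1) ≃ J n :=
  finSumFinEquiv.trans (finCongr (by omega))

/-- the coordinates `y` -/
def yc (i : Fin (n + 1)) : J n := eJ n (Sum.inl i)

/-- the coordinates `z` -/
def zc (i : Fin (n + 1)) : J n := eJ n (Sum.inr i)

theorem yc_inj : Function.Injective (yc (n := n)) := fun _ _ h =>
  Sum.inl.inj ((eJ n).injective h)

theorem zc_inj : Function.Injective (zc (n := n)) := fun _ _ h =>
  Sum.inr.inj ((eJ n).injective h)

theorem yc_ne_zc (i j : Fin (n + 1)) : yc i ≠ zc j := fun h =>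
  absurd ((eJ n).injective h) (by simp)

theorem cases_J (j : J n) : (∃ i, j = yc i) ∨ ∃ i, j = zc i := by
  obtain ⟨x, rfl⟩ := (eJ n).surjective j
  rcases x with i | i
  · exact Or.inl ⟨i, rfl⟩
  · exact Or.inr ⟨i, rfl⟩

theorem sum_J {M : Type} [AddCommMonoid M] (f : J n → M) :
    ∑ j, f j = ∑ i, f (yc i) + ∑ i, f (zc i) := by
  rw [← Equiv.sum_comp (eJ n) f, Fintype.sum_sum_type]
  rfl

theorem prod_J {M : Type} [CommMonoid M] (f : J n → M) :
    ∏ j, f j = (∏ i, f (yc i)) * ∏ i, f (zc i) := by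
  rw [← Equiv.prod_comp (eJ n) f, Fintype.prod_sum_type]
  rfl

/-- the columns of the coordinates `y` -/
def mY (c : Fin (n + 1) → J n → k) : Matrix (Fin (n + 1)) (Fin (n + 1)) k :=
  Matrix.of fun i j => c i (yc j)

/-- the columns of the coordinates `z` -/
def mZ (c : Fin (n + 1) → J n → k) : Matrix (Fin (n + 1)) (Fin (n + 1)) k :=
  Matrix.of fun i j => c i (zc j)

/-- the matrix `A` -/
def mA (c : Fin (n + 1) → J n → k) : Matrix (Fin (n + 1)) (Fin (n + 1)) k :=
  -((mZ c)⁻¹ * mY c)

theorem det_mZ {c : Fin (n + 1) → J n → k} (hc : GP c) : (mZ c).det ≠ 0 := hc zc zc_inj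

/-- the equations -/
theorem lin_iff {c : Fin (n + 1) → J n → k} (hc : GP c) {K : Type} [Field K] [Algebra k K]
    (s : J n → K) : (∀ i, ∑ j, algebraMap k K (c i j) * s j = 0) ↔
      ∀ i, s (zc i) = ((mA c).map (algebraMap k K)).mulVec (fun j => s (yc j)) i := by
  have hu : IsUnit (mZ c).det := isUnit_iff_ne_zero.2 (det_mZ hc)
  set Z := (mZ c).map (algebraMap k K) with hZ
  set Y := (mY c).map (algebraMap k K) with hY
  set Zi := ((mZ c)⁻¹).map (algebraMap k K) with hZi
  have hA : (mA c).map (algebraMap k K) = -(Zi * Y) := by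
    have h : ((mZ c)⁻¹ * mY c).map (algebraMap k K) = Zi * Y := Matrix.map_mul
    rw [← h]
    ext i j
    exact map_neg (algebraMap k K) (((mZ c)⁻¹ * mY c) i j)
  have hZZi : Z * Zi = 1 := by
    rw [hZ, hZi, ← Matrix.map_mul, Matrix.mul_nonsing_inv _ hu]
    exact Matrix.map_one _ (map_zero _) (map_one _)
  have hZiZ : Zi * Z = 1 := by
    rw [hZ, hZi, ← Matrix.map_mul, Matrix.nonsing_inv_mul _ hu]
    exact Matrix.map_one _ (map_zero _) (map_one _)
  set sy : Fin (n + 1) → K := fun j => s (yc j) with hsy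
  set sz : Fin (n + 1) → K := fun j => s (zc j) with hsz
  have h1 : (∀ i, ∑ j, algebraMap k K (c i j) * s j = 0) ↔ Y.mulVec sy + Z.mulVec sz = 0 := by
    rw [funext_iff]
    refine forall_congr' fun i => ?_
    rw [sum_J]
    rfl
  have h2 : (∀ i, s (zc i) = ((mA c).map (algebraMap k K)).mulVec (fun j => s (yc j)) i) ↔
      sz = -(Zi.mulVec (Y.mulVec sy)) := by
    rw [hA, Matrix.neg_mulVec, ← Matrix.mulVec_mulVec, funext_iff]
  rw [h1, h2]
  constructor
  · intro h
    have h3 : Zi.mulVec (Z.mulVec sz) = -(Zi.mulVec (Y.mulVec sy)) := by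
      rw [eq_neg_of_add_eq_zero_right h, Matrix.mulVec_neg]
    rwa [Matrix.mulVec_mulVec, hZiZ, Matrix.one_mulVec] at h3
  · intro h
    rw [h, Matrix.mulVec_neg, Matrix.mulVec_mulVec, hZZi, Matrix.one_mulVec, add_neg_cancel]

/-- all entries of `A` are different from zero -/
theorem mA_ne {c : Fin (n + 1) → J n → k} (hc : GP c) (i j : Fin (n + 1)) : mA c i j ≠ 0 := by
  have h1 : ((mZ c)⁻¹ * mY c) i j =
      Ring.inverse (mZ c).det * ((mZ c).cramer (fun l => mY c l j)) i := by
    rw [Matrix.cramer_eq_adjugate_mulVec, Matrix.inv_def, Matrix.smul_mul, Matrix.smul_apply,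
      smul_eq_mul]
    rfl
  have h2 : (mZ c).cramer (fun l => mY c l j) i ≠ 0 := by
    rw [Matrix.cramer_apply]
    have h3 : (mZ c).updateCol i (fun l => mY c l j) =
        Matrix.of fun a b => c a ((fun l => if l = i then yc j else zc l) b) := by
      ext a b
      by_cases hb : b = i
      · subst hb
        simp [mY]
      · simp [hb, mZ]
    rw [h3]
    refine hc _ fun a b hab => ?_
    by_cases ha : a = i
    · by_cases hb : b = i
      · rw [ha, hb]
      · simp only [if_pos ha, if_neg hb] at hab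
        exact absurd hab (yc_ne_zc _ _)
    · by_cases hb : b = i
      · simp only [if_neg ha, if_pos hb] at hab
        exact absurd hab.symm (yc_ne_zc _ _)
      · simp only [if_neg ha, if_neg hb] at hab
        exact zc_inj hab
  rw [mA, Matrix.neg_apply, h1]
  refine neg_ne_zero.2 (mul_ne_zero ?_ h2)
  rw [Ring.inverse_eq_inv']
  exact inv_ne_zero (det_mZ hc)

/-- the square of a vector -/
def sq {K : Type} [Field K] (t : J n → K) : J n → K := fun j => t j ^ 2

theorem mem_W {c : Fin (n + 1) → J n → k} (hc : GP c) (p : ℙ k (J n → k)) : p ∈ W c ↔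
    ∀ i, p.rep (zc i) ^ 2 = (mA c).mulVec (fun j => p.rep (yc j) ^ 2) i := by
  have h1 := lin_iff hc (K := k) (sq p.rep)
  have h2 : (mA c).map (algebraMap k k) = mA c := by
    ext i j
    rfl
  rw [h2] at h1
  exact h1

end Pool.Agent.HYW
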